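import Pool.Agent.K4H99.PathLike.Fin

/-!
# Path-like trees can be recognised in polynomial time

The definitions `GridAdj`, `IsEmbedding`, `StraightAt`, `IsSegment`, `IsElementary`, `transformed`,
`IsPathLike`, `Describes` and `PathLikeProblem` are in `Pool/Agent/K4H99/PathLike/Defs.lean`;
the class `P` (`InPP`) is defined in `Pool/Agent/NPC/Defs.lean` and `Pool/Agent/NPC/Classes.lean`
through the Turing machines of Mathlib.

Idea. Two consecutive single-edge segments cannot both be transformed (the embedding would not be
injective), so a path-like tree is a chain of rows (paths): consecutive rows are joined by
one edge `u v` such that the distance of `u` to the end of its row equals the distance of `v`
to the beginning of its row; conversely every such chain is realised by a boustrophedon.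
For an edge `u v` the part of the tree behind this edge is a component of the tree without the
edge, so the rows which are not yet known form one of polynomially many sets of vertices, and
dynamic programming over these components (with the position of `v` in its row) decides
whether the tree can be split in rows.
-/

set_option autoImplicit false

namespace Pool.Agent.Results.MP_eef266_lc.RecognitionInP

open Pool.Agent.NPC Pool.Agent.K4H99.PathLike

/-- It can be decided in polynomial time by a deterministic Turing machine whether a graph, given
by its vertex list and its edge list, is a path-like tree. -/
theorem result : InPP PathLikeProblem := inPP_pathLike

end Pool.Agent.Results.MP_eef266_lc.RecognitionInP
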